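import Pool.Agent.Helper98.ZB.Stmts
import Pool.Agent.Helper96.TWM.MNK

/-! Row ZLS of the sheet ZB (MP_7a8f48_an): the masses of the transported sections. -/

set_option linter.unusedSectionVars false

open MeasureTheory Filter Topology Finset
open scoped ComplexConjugate

namespace Pool.Agent.Helper49.ZB

open Pool.Agent.Helper98.TW (SA bo Sys IA ia_bo)
open Pool.Agent.Helper98.ZA (Pe)
open Pool.Agent.Helper98.ZB (Ra ci ST_ZLP ST_ZLS)
open Pool.Agent.Helper40.TWM (St NK ST_MNK)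
open Pool.Agent.Helper40.DZ (SK)
open Pool.Agent.Helper40.JZ (LM)
open Pool.Agent.Helper16.AZ (E Op unitary_norm unitary_inner unitary_star)
open Pool.Agent.Helper16.BZ (co Wk EE co_add co_unitary Wk_norm)
open Pool.Agent.Helper96.TWM (co_aesm Wk_aesm)

section
variable {Ω : Type} [MeasurableSpace Ω] {μ : Measure Ω} {R R' : Ω → Ω} {d : ℕ} {φ : Ω → Op d}

/-- Cauchy and Schwarz for sections -/
theorem cs {f g : Ω → E d} (hf : MemLp f 2 μ) (hg : MemLp g 2 μ) :
    ‖∫ x, (inner ℂ (f x) (g x) : ℂ) ∂μ‖ ^ 2 ≤ (∫ x, ‖f x‖ ^ 2 ∂μ) * ∫ x, ‖g x‖ ^ 2 ∂μ := by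
  have h1 : ∀ {u v : Ω → E d} (hu : MemLp u 2 μ) (hv : MemLp v 2 μ),
      (inner ℂ (hu.toLp u) (hv.toLp v) : ℂ) = ∫ x, (inner ℂ (u x) (v x) : ℂ) ∂μ := by
    intro u v hu hv
    rw [MeasureTheory.L2.inner_def]
    refine integral_congr_ae ?_
    filter_upwards [hu.coeFn_toLp, hv.coeFn_toLp] with x h1 h2
    rw [h1, h2]
  have h2 : ∀ {u : Ω → E d} (hu : MemLp u 2 μ), ‖hu.toLp u‖ ^ 2 = ∫ x, ‖u x‖ ^ 2 ∂μ := by
    intro u hu
    have h3 := h1 hu hu
    have h4 : ∀ x, (inner ℂ (u x) (u x) : ℂ) = ((‖u x‖ ^ 2 : ℝ) : ℂ) := fun x => by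
      rw [inner_self_eq_norm_sq_to_K]; norm_cast
    simp_rw [h4] at h3
    rw [integral_complex_ofReal, inner_self_eq_norm_sq_to_K] at h3
    have h5 : ((‖hu.toLp u‖ ^ 2 : ℝ) : ℂ) = ((∫ x, ‖u x‖ ^ 2 ∂μ : ℝ) : ℂ) := by
      rw [← h3]
      push_cast
      rfl
    exact Complex.ofReal_injective h5
  rw [← h1 hf hg, ← h2 hf, ← h2 hg, ← mul_pow]
  exact pow_le_pow_left₀ (norm_nonneg _) (norm_inner_le_norm _ _) 2

/-- the cocycle of a power -/
theorem co_pow (m h : ℕ) (x : Ω) : co R^[m] (co R φ m) h x = co R φ (m * h) x := by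
  induction h with
  | zero => simp
  | succ h ih =>
    rw [Pool.Agent.Helper16.BZ.co_succ, ih, Nat.mul_succ, Nat.add_comm (m * h) m, co_add,
      ← Function.iterate_mul]

theorem star_unit {A B C D : Op d} (hA : A ∈ unitary (Op d)) (hD : D ∈ unitary (Op d))
    (h : A * C = B * D) : star A * B = C * star D := by
  have h1 : star A * A = 1 := (Unitary.mem_iff.1 hA).1
  have h2 : D * star D = 1 := (Unitary.mem_iff.1 hD).2
  calc star A * B = star A * (B * D) * star D := by rw [mul_assoc, mul_assoc, h2, mul_one]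
    _ = star A * (A * C) * star D := by rw [h]
    _ = C * star D := by rw [← mul_assoc, h1, one_mul]

/-- the inner products of the iterates of the transported section -/
theorem ee_ci (hu : ∀ x, φ x ∈ unitary (Op d)) (c : Ω → E d) (m i h : ℕ) (x : Ω)
    (hx : R^[i] (R'^[i] x) = x) (hy : R'^[i] (R^[m * h] x) = R^[m * h] (R'^[i] x)) :
    EE R^[m] (co R φ m) (ci R R' φ c i) 0 h x = EE R φ c 0 (m * h) (R'^[i] x) := by
  have e1 : Wk R^[m] (co R φ m) h (ci R R' φ c i) x =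
      co R φ i (R'^[i] x) (Wk R φ (m * h) c (R'^[i] x)) := by
    unfold Wk ci
    rw [co_pow, ← Function.iterate_mul, hy]
    set z := R'^[i] x with hz
    have h1 : co R φ (m * h) x * co R φ i z = co R φ i (R^[m * h] z) * co R φ (m * h) z := by
      rw [← co_add, Nat.add_comm, co_add, hx]
    have h2 := star_unit (co_unitary R φ hu (m * h) x) (co_unitary R φ hu (m * h) z) h1
    exact congrArg (fun L : Op d => L (c (R^[m * h] z))) h2
  unfold EE
  rw [e1, Pool.Agent.Helper16.BZ.Wk_zero, Pool.Agent.Helper16.BZ.Wk_zero]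
  unfold ci
  rw [unitary_inner (co_unitary R φ hu i _)]

theorem co_sm (hR : Measurable R) (hφ : StronglyMeasurable φ) (n : ℕ) :
    StronglyMeasurable (co R φ n) := by
  induction n with
  | zero => exact stronglyMeasurable_const
  | succ n ih => exact (hφ.comp_measurable (hR.iterate n)).mul ih

theorem ci_sm (hR : Measurable R) (hR' : Measurable R') (hφ : StronglyMeasurable φ)
    {c : Ω → E d} (hc : StronglyMeasurable c) (i : ℕ) : StronglyMeasurable (ci R R' φ c i) := by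
  have h1 : StronglyMeasurable fun w => co R φ i (R'^[i] w) :=
    (co_sm hR hφ i).comp_measurable (hR'.iterate i)
  have h2 : StronglyMeasurable fun w => c (R'^[i] w) := hc.comp_measurable (hR'.iterate i)
  exact (isBoundedBilinearMap_apply (𝕜 := ℂ) (E := E d) (F := E d)).continuous.comp_stronglyMeasurable
    (h1.prodMk h2)

/-- integrals over conditional measures -/
theorem int_cond {m : ℕ} {B : Set Ω} (hm : (m : ENNReal) * μ B = 1)
    (F : Ω → ℂ) : ∫ x, F x ∂(ProbabilityTheory.cond μ B) = (m : ℂ) * ∫ x in B, F x ∂μ := by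
  have h1 : (μ B)⁻¹ = (m : ENNReal) := by
    rw [ENNReal.eq_inv_of_mul_eq_one_left hm]
  unfold ProbabilityTheory.cond
  rw [integral_smul_measure, h1]
  simp

theorem wk_memLp (hR : MeasurePreserving R μ μ) (hφ : AEStronglyMeasurable φ μ)
    (hu : ∀ x, φ x ∈ unitary (Op d)) {b : Ω → E d} (hb : MemLp b 2 μ) (k : ℕ) :
    MemLp (Wk R φ k b) 2 μ := by
  have h1 : MemLp (fun x => b (R^[k] x)) 2 μ := hb.comp_measurePreserving (hR.iterate k)
  exact h1.congr_norm (by
    have h2 : AEStronglyMeasurable (fun x => b (R^[k] x)) μ := h1.1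
    have h3 : AEStronglyMeasurable (fun x => star (co R φ k x)) μ :=
      (ContinuousLinearMap.adjoint (𝕜 := ℂ) (E := E d) (F := E d)).continuous.comp_aestronglyMeasurable
        (by
          induction k with
          | zero => exact aestronglyMeasurable_const
          | succ n ih =>
            have h4 : AEStronglyMeasurable (fun x => φ (R^[n] x)) μ :=
              hφ.comp_quasiMeasurePreserving (hR.iterate n).quasiMeasurePreserving
            have h5 : MemLp (fun x => b (R^[n] x)) 2 μ := hb.comp_measurePreserving (hR.iterate n)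
            exact h4.mul (ih h5 h5.1))
    exact (ContinuousLinearMap.id ℂ (Op d)).aestronglyMeasurable_comp₂ h3 h2)
    (Eventually.of_forall fun x => (Wk_norm R φ b hu k x).symm)

theorem wk_int (hR : MeasurePreserving R μ μ) (hu : ∀ x, φ x ∈ unitary (Op d)) {b : Ω → E d}
    (hb : MemLp b 2 μ) (k : ℕ) : ∫ x, ‖Wk R φ k b x‖ ^ 2 ∂μ = ∫ x, ‖b x‖ ^ 2 ∂μ := by
  have h1 : AEStronglyMeasurable (fun x => ‖b x‖ ^ 2) (μ.map R^[k]) := by
    rw [(hR.iterate k).map_eq]
    exact (hb.1.norm.pow 2)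
  have h2 := integral_map (hR.iterate k).measurable.aemeasurable h1
  rw [(hR.iterate k).map_eq] at h2
  rw [h2]
  exact integral_congr_ae (Eventually.of_forall fun x => by
    show ‖Wk R φ k b x‖ ^ 2 = ‖b (R^[k] x)‖ ^ 2
    rw [Wk_norm R φ b hu])

theorem inner_int {f g : Ω → E d} (hf : MemLp f 2 μ) (hg : MemLp g 2 μ) :
    Integrable (fun x => (inner ℂ (f x) (g x) : ℂ)) μ := by
  have h1 : Integrable (fun x => ‖f x‖ * ‖g x‖) μ := hf.norm.integrable_mul hg.norm
  exact h1.mono' (hf.1.inner hg.1) (Eventually.of_forall fun x => norm_inner_le_norm _ _)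

/-- splitting the section -/
theorem split (hR : MeasurePreserving R μ μ) (hφ : AEStronglyMeasurable φ μ)
    (hu : ∀ x, φ x ∈ unitary (Op d)) {g c c₀ : Ω → E d} (hg : MemLp g 2 μ) (hc : MemLp c 2 μ)
    (hc₀ : MemLp c₀ 2 μ) (k : ℕ) :
    ‖∫ x, (inner ℂ (g x) (Wk R φ k c x) : ℂ) ∂μ‖ ^ 2 ≤
      2 * ((∫ x, ‖g x‖ ^ 2 ∂μ) * ∫ x, ‖c x - c₀ x‖ ^ 2 ∂μ) +
      2 * ‖∫ x, (inner ℂ (g x) (Wk R φ k c₀ x) : ℂ) ∂μ‖ ^ 2 := by
  have hd : MemLp (fun x => c x - c₀ x) 2 μ := hc.sub hc₀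
  have e1 : ∀ x, (inner ℂ (g x) (Wk R φ k c x) : ℂ) =
      inner ℂ (g x) (Wk R φ k (fun x => c x - c₀ x) x) + inner ℂ (g x) (Wk R φ k c₀ x) := by
    intro x
    rw [← inner_add_right]
    congr 1
    unfold Wk
    rw [← map_add, sub_add_cancel]
  have e2 : ∫ x, (inner ℂ (g x) (Wk R φ k c x) : ℂ) ∂μ =
      ∫ x, (inner ℂ (g x) (Wk R φ k (fun x => c x - c₀ x) x) : ℂ) ∂μ +
      ∫ x, (inner ℂ (g x) (Wk R φ k c₀ x) : ℂ) ∂μ := by
    rw [← integral_add (inner_int hg (wk_memLp hR hφ hu hd k))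
      (inner_int hg (wk_memLp hR hφ hu hc₀ k))]
    exact integral_congr_ae (Eventually.of_forall e1)
  have e3 := cs hg (wk_memLp hR hφ hu hd k)
  rw [wk_int hR hu hd k] at e3
  rw [e2]
  set u := ∫ x, (inner ℂ (g x) (Wk R φ k (fun x => c x - c₀ x) x) : ℂ) ∂μ with hu'
  set v := ∫ x, (inner ℂ (g x) (Wk R φ k c₀ x) : ℂ) ∂μ with hv'
  have e4 : ‖u + v‖ ^ 2 ≤ (‖u‖ + ‖v‖) ^ 2 := pow_le_pow_left₀ (norm_nonneg _) (norm_add_le _ _) 2
  nlinarith [sq_nonneg (‖u‖ - ‖v‖)]

/-- sums along the multiples -/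
theorem sum_mul (a : ℕ → ℝ) (ha : ∀ k, 0 ≤ a k) {m : ℕ} (hm : 1 ≤ m) (H : ℕ) :
    ∑ h ∈ range H, a (m * h) ≤ ∑ k ∈ range (m * H), a k := by
  induction H with
  | zero => simp
  | succ H ih =>
    rw [sum_range_succ, Nat.mul_succ, sum_range_add]
    have h1 : a (m * H) ≤ ∑ x ∈ range m, a (m * H + x) := by
      have := single_le_sum (f := fun x => a (m * H + x)) (s := range m)
        (fun x _ => ha _) (mem_range.2 hm)
      simpa using this
    linarith

theorem mean_mul (a : ℕ → ℝ) (ha : ∀ k, 0 ≤ a k) {m : ℕ} (hm : 1 ≤ m)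
    (h : Tendsto (fun H : ℕ => (∑ k ∈ range H, a k) / (H : ℝ)) atTop (𝓝 0)) :
    Tendsto (fun H : ℕ => (∑ k ∈ range H, a (m * k)) / (H : ℝ)) atTop (𝓝 0) := by
  have h1 : Tendsto (fun H : ℕ => m * H) atTop atTop :=
    tendsto_atTop_mono (fun H => Nat.le_mul_of_pos_left H hm) tendsto_id
  have h2 := (h.comp h1).const_mul (m : ℝ)
  rw [mul_zero] at h2
  refine squeeze_zero' (Eventually.of_forall fun H => ?_) ?_ h2
  · exact div_nonneg (sum_nonneg fun k _ => ha _) (Nat.cast_nonneg _)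
  · filter_upwards [eventually_ge_atTop 1] with H hH
    have hH' : (0 : ℝ) < H := by exact_mod_cast hH
    have hm' : (0 : ℝ) < m := by exact_mod_cast hm
    show _ ≤ (m : ℝ) * ((∑ k ∈ range (m * H), a k) / ((m * H : ℕ) : ℝ))
    have h3 : (m : ℝ) * ((∑ k ∈ range (m * H), a k) / ((m * H : ℕ) : ℝ)) =
        (∑ k ∈ range (m * H), a k) / (H : ℝ) := by
      push_cast
      field_simp
    rw [h3]
    exact div_le_div_of_nonneg_right (sum_mul a ha hm H) hH'.le

end

/-- ZLS: the masses of the transported sections. -/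
theorem st_ZLS (hMNK : ST_MNK) (hZLP : ST_ZLP) : ST_ZLS := by
  intro Ω _ _ μ _ R R' u N m B d φ c c₀ hS hP hφ hu hc ⟨b, hb⟩ hc₀ i hi
  have hac : ProbabilityTheory.cond μ B ≪ μ := ProbabilityTheory.cond_absolutelyContinuous
  have hμB : μ B ≠ 0 := by
    intro h
    have := hP.mass
    rw [h, mul_zero] at this
    exact zero_ne_one this
  have : IsProbabilityMeasure (ProbabilityTheory.cond μ B) :=
    ProbabilityTheory.cond_isProbabilityMeasure hμB
  have hSys : Sys (ProbabilityTheory.cond μ B) R^[m] R'^[m] := by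
    have := hP.st.sys 1
    simpa using this
  have hRm : Measurable R := hS.mp.measurable
  have hRm' : Measurable R' := hS.mp'.measurable
  have hΦ : StronglyMeasurable (co R φ m) := co_sm hRm hφ m
  have hΦu : ∀ x, co R φ m x ∈ unitary (Op d) := co_unitary R φ hu m
  have hci : StronglyMeasurable (ci R R' φ c i) := ci_sm hRm hRm' hφ hc i
  have hcib : ∀ x, ‖ci R R' φ c i x‖ ≤ b := fun x => by
    unfold ci
    rw [unitary_norm (co_unitary R φ hu i _)]
    exact hb _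
  have hSK : SK (NK (ProbabilityTheory.cond μ B) R^[m] (co R φ m) (ci R R' φ c i)) :=
    (hMNK Ω (ProbabilityTheory.cond μ B) R^[m] R'^[m] bo d (co R φ m) (ci R R' φ c i) hSys
      (ia_bo hSys) hΦ.aestronglyMeasurable hΦu hci.aestronglyMeasurable ⟨b, hcib⟩).1
  refine ⟨hSK, ?_⟩
  have hcL : MemLp c 2 μ := MemLp.of_bound hc.aestronglyMeasurable b (Eventually.of_forall hb)
  have hBi : MeasurableSet {z | R^[i] z ∈ B} := (hRm.iterate i) hP.meas
  have hgL : MemLp (Set.indicator {z | R^[i] z ∈ B} c) 2 μ := hcL.indicator hBi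
  have hg2 : ∫ x, ‖Set.indicator {z | R^[i] z ∈ B} c x‖ ^ 2 ∂μ ≤ ∫ x, ‖c x‖ ^ 2 ∂μ := by
    refine integral_mono (hgL.integrable_norm_pow (by norm_num)) (hcL.integrable_norm_pow (by norm_num))
      fun x => ?_
    exact pow_le_pow_left₀ (norm_nonneg _) (norm_indicator_le_norm_self _ _) 2
  have hm1 : (0 : ℝ) ≤ (m : ℝ) ^ 2 := by positivity
  have key : ∀ h : ℕ, NK (ProbabilityTheory.cond μ B) R^[m] (co R φ m) (ci R R' φ c i) 0 h =
      (m : ℝ) ^ 2 * ‖∫ x, (inner ℂ (Set.indicator {z | R^[i] z ∈ B} c x)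
        (Wk R φ (m * h) c x) : ℂ) ∂μ‖ ^ 2 := by
    intro h
    unfold NK
    have h1 : ∀ᵐ x ∂μ, EE R^[m] (co R φ m) (ci R R' φ c i) 0 h x =
        EE R φ c 0 (m * h) (R'^[i] x) := by
      have h2 : ∀ᵐ x ∂μ, R^[i] (R'^[i] x) = x := (hS.iterate i).r
      have h3 : ∀ᵐ x ∂μ, R'^[i] (R^[m * h] x) = R^[m * h] (R'^[i] x) := by
        have h4 : ∀ᵐ x ∂μ, R'^[i] (R^[i] (R^[m * h] (R'^[i] x))) = R^[m * h] (R'^[i] x) := by
          have h5 : ∀ᵐ y ∂μ, R'^[i] (R^[i] y) = y := (hS.iterate i).l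
          have h6 : MeasurePreserving (fun x => R^[m * h] (R'^[i] x)) μ μ :=
            (hS.mp.iterate (m * h)).comp (hS.mp'.iterate i)
          exact h6.quasiMeasurePreserving.ae h5
        filter_upwards [h2, h4] with x hx2 hx4
        rw [← hx4, ← Function.iterate_add_apply, Nat.add_comm, Function.iterate_add_apply, hx2]
      filter_upwards [h2, h3] with x hx2 hx3
      exact ee_ci hu c m i h x hx2 hx3
    rw [integral_congr_ae (hac.ae_le h1), int_cond hP.mass, norm_mul, mul_pow]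
    congr 1
    · simp
    congr 2
    rw [← integral_indicator hP.meas]
    have hEs : StronglyMeasurable (EE R φ c 0 (m * h)) := by
      have w1 : StronglyMeasurable (Wk R φ (m * h) c) := by
        have w2 : StronglyMeasurable fun x => star (co R φ (m * h) x) :=
          (ContinuousLinearMap.adjoint (𝕜 := ℂ) (E := E d) (F := E d)).continuous.comp_stronglyMeasurable
            (co_sm hRm hφ (m * h))
        exact (isBoundedBilinearMap_apply (𝕜 := ℂ) (E := E d)
          (F := E d)).continuous.comp_stronglyMeasurable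
          (w2.prodMk (hc.comp_measurable (hRm.iterate (m * h))))
      have w3 : StronglyMeasurable (Wk R φ 0 c) := by
        have : Wk R φ 0 c = c := funext fun x => Pool.Agent.Helper16.BZ.Wk_zero R φ c x
        rw [this]
        exact hc
      exact w3.inner w1
    have h7 : AEStronglyMeasurable (Set.indicator B fun x => EE R φ c 0 (m * h) (R'^[i] x))
        (μ.map R^[i]) :=
      ((hEs.comp_measurable (hRm'.iterate i)).indicator hP.meas).aestronglyMeasurable
    have h8 := integral_map (hS.mp.iterate i).measurable.aemeasurable h7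
    rw [(hS.mp.iterate i).map_eq] at h8
    rw [h8]
    refine integral_congr_ae ?_
    filter_upwards [(hS.iterate i).l] with x hx
    by_cases hxB : R^[i] x ∈ B
    · rw [Set.indicator_of_mem hxB, Set.indicator_of_mem (show x ∈ {z | R^[i] z ∈ B} from hxB), hx]
      unfold EE
      rw [Pool.Agent.Helper16.BZ.Wk_zero]
    · rw [Set.indicator_of_notMem hxB,
        Set.indicator_of_notMem (show x ∉ {z | R^[i] z ∈ B} from hxB), inner_zero_left]
  have h1 := (hZLP _ hSK).1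
  have h2 := mean_mul (fun k => ‖∫ x, (inner ℂ (Set.indicator {z | R^[i] z ∈ B} c x)
    (Wk R φ k c₀ x) : ℂ) ∂μ‖ ^ 2) (fun k => by positivity) hP.pos (hc₀.2 _ hgL)
  have h3 := (h2.const_mul (2 * (m : ℝ) ^ 2)).const_add
    (2 * (m : ℝ) ^ 2 * (∫ x, ‖c x‖ ^ 2 ∂μ) * ∫ x, ‖c x - c₀ x‖ ^ 2 ∂μ)
  rw [mul_zero, add_zero] at h3
  refine le_of_tendsto_of_tendsto h1 h3 ?_
  filter_upwards [eventually_ge_atTop 1] with H hH
  have hH' : (0 : ℝ) < H := by exact_mod_cast hH
  show _ / (H : ℝ) ≤ _ + 2 * (m : ℝ) ^ 2 * ((∑ k ∈ range H, _) / (H : ℝ))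
  rw [div_le_iff₀ hH', add_mul, mul_assoc (2 * (m : ℝ) ^ 2) (_ / (H : ℝ)) (H : ℝ),
    div_mul_cancel₀ _ hH'.ne']
  have h4 : ∀ h ∈ range H, NK (ProbabilityTheory.cond μ B) R^[m] (co R φ m)
      (ci R R' φ c i) 0 h ≤
      2 * (m : ℝ) ^ 2 * (∫ x, ‖c x‖ ^ 2 ∂μ) * (∫ x, ‖c x - c₀ x‖ ^ 2 ∂μ) +
      2 * (m : ℝ) ^ 2 * ‖∫ x, (inner ℂ (Set.indicator {z | R^[i] z ∈ B} c x)
        (Wk R φ (m * h) c₀ x) : ℂ) ∂μ‖ ^ 2 := by
    intro h _
    rw [key h]
    have h5 := split hS.mp hφ.aestronglyMeasurable hu hgL hcL hc₀.1 (m * h)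
    have h6 : 0 ≤ ∫ x, ‖c x - c₀ x‖ ^ 2 ∂μ := integral_nonneg fun x => by positivity
    have h7 := mul_le_mul_of_nonneg_right hg2 h6
    nlinarith [mul_le_mul_of_nonneg_left h5 hm1, mul_le_mul_of_nonneg_left h7 hm1]
  refine (sum_le_sum h4).trans (le_of_eq ?_)
  rw [sum_add_distrib, sum_const, card_range, nsmul_eq_mul, mul_sum, mul_comm (H : ℝ)]

end Pool.Agent.Helper49.ZB
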